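import Mathlib

/-!
Low-degree functions over a field on the cube, and the dimension bound of
Razborov and Smolensky for the majority function.
-/

namespace Pool.Agent.Work.MP_f474fe_lc.PM

open Finset BigOperators

set_option linter.unusedSectionVars false

variable {κ : Type} [Fintype κ] [DecidableEq κ] {K : Type} [Field K]

/-- A bit read in a field. -/
def bt (K : Type) [Field K] (b : Bool) : K := if b then 1 else 0

/-- The monomial of a set of variables. -/
def mon (K : Type) [Field K] (A : Finset κ) : (κ → Bool) → K := fun y => ∏ i ∈ A, bt K (y i)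

/-- Functions of degree at most `d`. -/
def V (K : Type) [Field K] (κ : Type) (d : ℕ) : Submodule K ((κ → Bool) → K) :=
  Submodule.span K (mon K '' {A : Finset κ | A.card ≤ d})

/-- Number of ones. -/
def wt (y : κ → Bool) : ℕ := (univ.filter fun i => y i = true).card

lemma bt_not (b : Bool) : bt K (!b) = 1 - bt K b := by cases b <;> simp [bt]

lemma mon_eq (A : Finset κ) (y : κ → Bool) :
    mon K A y = if ∀ i ∈ A, y i = true then 1 else 0 := by
  unfold mon bt
  rw [Finset.prod_boole]
  congr

lemma mon_mul (A B : Finset κ) : mon K A * mon K B = mon K (A ∪ B) := by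
  funext y
  simp only [Pi.mul_apply, mon_eq, forall_mem_union]
  by_cases h1 : ∀ i ∈ A, y i = true
  · by_cases h2 : ∀ i ∈ B, y i = true
    · rw [if_pos h1, if_pos h2, if_pos ⟨h1, h2⟩, mul_one]
    · rw [if_neg h2, mul_zero, if_neg fun h => h2 (And.right h)]
  · rw [if_neg h1, zero_mul, if_neg fun h => h1 (And.left h)]

lemma V_mon {d : ℕ} {A : Finset κ} (h : A.card ≤ d) : mon K A ∈ V K κ d :=
  Submodule.subset_span ⟨A, h, rfl⟩

lemma V_mono {a b : ℕ} (h : a ≤ b) {f : (κ → Bool) → K} (hf : f ∈ V K κ a) : f ∈ V K κ b :=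
  Submodule.span_mono (Set.image_mono fun _ hA => le_trans hA h) hf

lemma V_mul {a b : ℕ} {f g : (κ → Bool) → K} (hf : f ∈ V K κ a) (hg : g ∈ V K κ b) :
    f * g ∈ V K κ (a + b) := by
  have : V K κ a * V K κ b ≤ V K κ (a + b) := by
    unfold V
    rw [Submodule.span_mul_span, Submodule.span_le]
    rintro _ ⟨_, ⟨A, hA, rfl⟩, _, ⟨B, hB, rfl⟩, rfl⟩
    have hA' : A.card ≤ a := hA
    have hB' : B.card ≤ b := hB
    show mon K A * mon K B ∈ V K κ (a + b)
    rw [mon_mul]
    exact V_mon ((card_union_le A B).trans (by omega))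
  exact this (Submodule.mul_mem_mul hf hg)

lemma V_one (d : ℕ) : (1 : (κ → Bool) → K) ∈ V K κ d := by
  have : (1 : (κ → Bool) → K) = mon K ∅ := by funext y; simp [mon]
  rw [this]
  exact V_mon (by simp)

lemma V_const (d : ℕ) (c : K) : (fun _ : κ → Bool => c) ∈ V K κ d := by
  have : (fun _ : κ → Bool => c) = c • (1 : (κ → Bool) → K) := by funext y; simp
  rw [this]
  exact Submodule.smul_mem _ _ (V_one d)

lemma V_var (i : κ) : (fun y : κ → Bool => bt K (y i)) ∈ V K κ 1 := by
  have : (fun y : κ → Bool => bt K (y i)) = mon K {i} := by funext y; simp [mon]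
  rw [this]
  exact V_mon (by simp)

lemma V_prod {α : Type} (s : Finset α) (d : α → ℕ) (f : α → (κ → Bool) → K)
    (h : ∀ i ∈ s, f i ∈ V K κ (d i)) : (∏ i ∈ s, f i) ∈ V K κ (∑ i ∈ s, d i) := by
  classical
  induction s using Finset.induction_on with
  | empty => simpa using V_one 0
  | insert a s ha ih =>
    rw [prod_insert ha, sum_insert ha]
    exact V_mul (h a (mem_insert_self _ _)) (ih fun i hi => h i (mem_insert_of_mem hi))

lemma V_pow {d : ℕ} {f : (κ → Bool) → K} (h : f ∈ V K κ d) (k : ℕ) : f ^ k ∈ V K κ (k * d) := by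
  induction k with
  | zero => simpa using V_one 0
  | succ k ih =>
    rw [pow_succ, Nat.succ_mul]
    exact V_mul ih h

lemma V_neg {d : ℕ} {f : (κ → Bool) → K} (h : f ∈ V K κ d) :
    (fun y => f fun i => !y i) ∈ V K κ d := by
  induction h using Submodule.span_induction with
  | mem f hf =>
    obtain ⟨A, hA, rfl⟩ := hf
    have hA' : A.card ≤ d := hA
    have e : (fun y : κ → Bool => mon K A fun i => !y i) =
        ∏ i ∈ A, (1 - fun y : κ → Bool => bt K (y i)) := by
      funext y
      simp [mon, bt_not]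
    rw [e]
    refine V_mono ?_ (V_prod A (fun _ => 1) _ fun i _ => Submodule.sub_mem _ (V_one 1) (V_var i))
    simpa using hA'
  | zero => exact Submodule.zero_mem _
  | add f g _ _ hf hg => exact Submodule.add_mem _ hf hg
  | smul c f _ hf => exact Submodule.smul_mem _ c hf

lemma V_all (φ : (κ → Bool) → K) : φ ∈ V K κ (Fintype.card κ) := by
  have e : φ = ∑ w : κ → Bool, φ w • ∏ i : κ,
      (if w i then (fun y : κ → Bool => bt K (y i)) else 1 - fun y : κ → Bool => bt K (y i)) := by
    funext y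
    rw [Finset.sum_apply, Finset.sum_eq_single y]
    · simp only [Pi.smul_apply, Finset.prod_apply, smul_eq_mul]
      rw [Finset.prod_eq_one, mul_one]
      intro i _
      cases h : y i <;> simp [h, bt]
    · intro w _ hw
      obtain ⟨i, hi⟩ := Function.ne_iff.1 hw
      simp only [Pi.smul_apply, Finset.prod_apply, smul_eq_mul]
      rw [Finset.prod_eq_zero (mem_univ i), mul_zero]
      cases h : y i <;> cases h' : w i <;> simp_all [bt]
    · simp
  rw [e]
  refine Submodule.sum_mem _ fun w _ => Submodule.smul_mem _ _ ?_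
  refine V_mono ?_ (V_prod univ (fun _ => 1) _ fun i _ => ?_)
  · simp
  · split_ifs
    · exact V_var i
    · exact Submodule.sub_mem _ (V_one 1) (V_var i)

lemma low_interp (M : ℕ) (φ : (κ → Bool) → K) :
    ∃ g ∈ V K κ M, ∀ y, wt y ≤ M → g y = φ y := by
  have h := V_all φ
  induction h using Submodule.span_induction with
  | mem f hf =>
    obtain ⟨A, _, rfl⟩ := hf
    by_cases hA : A.card ≤ M
    · exact ⟨mon K A, V_mon hA, fun _ _ => rfl⟩
    · refine ⟨0, Submodule.zero_mem _, fun y hy => ?_⟩
      rw [mon_eq, if_neg]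
      · rfl
      · intro h
        have : A ⊆ univ.filter fun i => y i = true := fun i hi => by simp [h i hi]
        exact hA ((card_le_card this).trans hy)
  | zero => exact ⟨0, Submodule.zero_mem _, fun _ _ => rfl⟩
  | add f g _ _ hf hg =>
    obtain ⟨f', h1, h2⟩ := hf
    obtain ⟨g', h3, h4⟩ := hg
    exact ⟨f' + g', Submodule.add_mem _ h1 h3, fun y hy => by simp [h2 y hy, h4 y hy]⟩
  | smul c f _ hf =>
    obtain ⟨f', h1, h2⟩ := hf
    exact ⟨c • f', Submodule.smul_mem _ c h1, fun y hy => by simp [h2 y hy]⟩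

lemma wt_neg (y : κ → Bool) : wt (fun i => !y i) + wt y = Fintype.card κ := by
  unfold wt
  rw [add_comm, ← card_univ, ← card_filter_add_card_filter_not (s := univ) fun i => y i = true]
  congr 2
  ext i
  simp

lemma count_sets {M D : ℕ} (hκ : Fintype.card κ = 2 * M + 1) :
    (univ.filter fun A : Finset κ => A.card ≤ M + D).card ≤ 4 ^ M + D * (2 * M + 1).choose M := by
  have h1 : (univ.filter fun A : Finset κ => A.card ≤ M + D) =
      (range (M + D + 1)).biUnion fun j => powersetCard j univ := by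
    ext A
    simp
  rw [h1]
  refine card_biUnion_le.trans ?_
  simp only [card_powersetCard, card_univ, hκ]
  rw [show M + D + 1 = (M + 1) + D by ring, sum_range_add, Nat.sum_range_choose_halfway]
  gcongr
  calc ∑ x ∈ range D, (2 * M + 1).choose (M + 1 + x) ≤ ∑ _x ∈ range D, (2 * M + 1).choose M :=
        sum_le_sum fun x _ => by
          have := Nat.choose_le_middle (M + 1 + x) (2 * M + 1)
          rwa [show (2 * M + 1) / 2 = M by omega] at this
    _ = _ := by simp

theorem smolensky [DecidableEq K] {M D : ℕ} (hκ : Fintype.card κ = 2 * M + 1) {Q : (κ → Bool) → K}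
    (hQ : Q ∈ V K κ D) :
    (univ.filter fun y : κ → Bool => Q y = if M < wt y then 1 else 0).card ≤
      4 ^ M + D * (2 * M + 1).choose M := by
  classical
  refine le_trans ?_ (count_sets (D := D) hκ)
  set G := univ.filter fun y : κ → Bool => Q y = if M < wt y then 1 else 0 with hG
  let ρ : V K κ (M + D) →ₗ[K] (G → K) :=
    (LinearMap.funLeft K K (Subtype.val : G → κ → Bool)).comp (V K κ (M + D)).subtype
  have hsurj : Function.Surjective ρ := by
    intro ψ
    let φ : (κ → Bool) → K := fun y => if h : y ∈ G then ψ ⟨y, h⟩ else 0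
    obtain ⟨g0, h0, e0⟩ := low_interp M φ
    obtain ⟨g1, h1, e1⟩ := low_interp M fun y => φ fun i => !y i
    refine ⟨⟨g0 * (1 - Q) + (fun y => g1 fun i => !y i) * Q, Submodule.add_mem _
      (V_mul h0 (Submodule.sub_mem _ (V_one D) hQ)) (V_mul (V_neg h1) hQ)⟩, ?_⟩
    funext ⟨y, hy⟩
    have hy' : Q y = if M < wt y then 1 else 0 := (mem_filter.1 hy).2
    have hφ : φ y = ψ ⟨y, hy⟩ := dif_pos hy
    show g0 y * (1 - Q y) + (g1 fun i => !y i) * Q y = ψ ⟨y, hy⟩
    by_cases hw : M < wt y
    · rw [hy', if_pos hw, e1 _ (by have := wt_neg y; omega)]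
      simp [hφ]
    · rw [hy', if_neg hw, e0 _ (by omega)]
      simp [hφ]
  have h1 := LinearMap.finrank_le_finrank_of_surjective hsurj
  rw [Module.finrank_fintype_fun_eq_card, Fintype.card_coe] at h1
  refine h1.trans ?_
  have h2 : V K κ (M + D) = Submodule.span K
      (((univ.filter fun A : Finset κ => A.card ≤ M + D).image (mon K) : Finset _) : Set _) := by
    unfold V
    congr 1
    ext f
    simp
  rw [h2]
  exact (finrank_span_finset_le_card _).trans card_image_le

lemma cb_bound (M : ℕ) : (Nat.centralBinom M) ^ 2 * (2 * M + 1) ≤ 16 ^ M := by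
  induction M with
  | zero => simp
  | succ M ih =>
    have h := Nat.succ_mul_centralBinom_succ M
    have h1 : (M + 1) ^ 2 * (Nat.centralBinom (M + 1) ^ 2 * (2 * (M + 1) + 1)) ≤
        (M + 1) ^ 2 * 16 ^ (M + 1) := by
      calc (M + 1) ^ 2 * (Nat.centralBinom (M + 1) ^ 2 * (2 * (M + 1) + 1))
          = ((M + 1) * Nat.centralBinom (M + 1)) ^ 2 * (2 * M + 3) := by ring
        _ = 4 * ((2 * M + 1) * (2 * M + 3)) * (Nat.centralBinom M ^ 2 * (2 * M + 1)) := by
            rw [h]; ring
        _ ≤ 4 * (4 * (M + 1) ^ 2) * 16 ^ M :=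
            Nat.mul_le_mul (Nat.mul_le_mul_left _ (by nlinarith)) ih
        _ = _ := by ring
    exact Nat.le_of_mul_le_mul_left h1 (by positivity)

lemma mid_bound {M r : ℕ} (h : 2 * M + 1 = r ^ 2) : (2 * M + 1).choose M * r ≤ 2 * 4 ^ M := by
  have h1 : (2 * M + 1).choose M ≤ 2 * Nat.centralBinom M := by
    rw [← Nat.choose_symm_half, Nat.choose_succ_succ', Nat.centralBinom_eq_two_mul_choose]
    have := Nat.choose_le_middle (M + 1) (2 * M)
    rw [show 2 * M / 2 = M by omega] at this
    omega
  have h2 : Nat.centralBinom M * r ≤ 4 ^ M := by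
    have := cb_bound M
    rw [h, ← mul_pow, show 16 ^ M = (4 ^ M) ^ 2 by rw [← pow_mul, mul_comm, pow_mul]; rfl] at this
    exact (Nat.pow_le_pow_iff_left (by norm_num)).1 this
  calc (2 * M + 1).choose M * r ≤ 2 * Nat.centralBinom M * r := by gcongr
    _ = 2 * (Nat.centralBinom M * r) := by ring
    _ ≤ _ := by gcongr

lemma V_fun {p : ℕ} [hp : Fact p.Prime] {d : ℕ} {σ : (κ → Bool) → ZMod p}
    (h : σ ∈ V (ZMod p) κ d) (φ : ZMod p → ZMod p) :
    (fun y => φ (σ y)) ∈ V (ZMod p) κ ((p - 1) * d) := by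
  have h2 := hp.out.two_le
  have e : (fun y => φ (σ y)) = ∑ s : ZMod p, φ s • (1 - (σ - fun _ => s) ^ (p - 1)) := by
    funext y
    rw [Finset.sum_apply, Finset.sum_eq_single (σ y)]
    · simp only [Pi.smul_apply, Pi.sub_apply, Pi.pow_apply, Pi.one_apply, sub_self, smul_eq_mul]
      rw [zero_pow (by omega), sub_zero, mul_one]
    · intro s _ hs
      simp only [Pi.smul_apply, Pi.sub_apply, Pi.pow_apply, Pi.one_apply, smul_eq_mul]
      rw [ZMod.pow_card_sub_one_eq_one (sub_ne_zero.2 (Ne.symm hs)), sub_self, mul_zero]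
    · simp
  rw [e]
  exact Submodule.sum_mem _ fun s _ => Submodule.smul_mem _ _
    (Submodule.sub_mem _ (V_one _) (V_pow (Submodule.sub_mem _ h (V_const d s)) _))

end Pool.Agent.Work.MP_f474fe_lc.PM
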