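import Pool.Agent.Work.MP_f474fe_lc.PT.Holes
import Pool.Agent.Work.MP_f474fe_lc.PM.Smol

/-!
Estimates for the majority sign and the fraction of zeros of a uniform bit string.
-/

namespace Pool.Agent.Work.MP_f474fe_lc.PM

open Finset BigOperators Pool.Agent.Work.MP_f474fe_lc.PT

set_option linter.unusedSectionVars false

variable {κ : Type} [Fintype κ] [DecidableEq κ]

/-- The majority sign. -/
def sig (M : ℕ) (y : κ → Bool) : ℝ := if M < wt y then 1 else -1

/-- Sum of the signs. -/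
def SS (y : κ → Bool) : ℝ := ∑ i, sg (y i)

/-- Fraction of zeros. -/
noncomputable def zf (y : κ → Bool) : ℝ := 𝔼 c, if y c = false then (1 : ℝ) else 0

lemma expect_prod_pi {α Λ : Type} [Fintype α] [DecidableEq α] [Fintype Λ] (g : α → Λ → ℝ) :
    𝔼 ω : α → Λ, ∏ i, g i (ω i) = ∏ i, 𝔼 l, g i l := by
  simp only [Fintype.expect_eq_sum_div_card]
  rw [prod_div_distrib, prod_univ_sum, Fintype.piFinset_univ, prod_const, card_univ,
    Fintype.card_fun]
  push_cast
  rfl

lemma expect_neg (F : (κ → Bool) → ℝ) : 𝔼 y, F y = 𝔼 y : κ → Bool, F fun i => !y i :=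
  (Fintype.expect_equiv (Function.Involutive.toPerm (fun (y : κ → Bool) i => !y i)
    fun y => by simp) (fun y => F fun i => !y i) F fun _ => rfl).symm

lemma odd_zero (F : (κ → Bool) → ℝ) (h : ∀ y, F (fun i => !y i) = - F y) : 𝔼 y, F y = 0 := by
  have h1 := expect_neg F
  simp only [h, expect_neg_distrib] at h1
  linarith

lemma sig_mean {M : ℕ} (hκ : Fintype.card κ = 2 * M + 1) : 𝔼 y : κ → Bool, sig M y = 0 := by
  refine odd_zero _ fun y => ?_
  have := wt_neg y
  unfold sig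
  split_ifs <;> first | omega | simp

lemma SS_mean : 𝔼 y : κ → Bool, SS y = 0 :=
  odd_zero _ fun y => by simp [SS, sg_not]

lemma SS_eq (y : κ → Bool) : SS y = 2 * wt y - Fintype.card κ := by
  have : ∀ i, sg (y i) = 2 * (if y i = true then 1 else 0) - 1 := fun i => by
    cases y i <;> norm_num [sg]
  simp only [SS, this, sum_sub_distrib, ← mul_sum, wt, card_filter]
  simp

lemma zf_eq [Nonempty κ] (y : κ → Bool) : zf y = (1 - SS y / Fintype.card κ) / 2 := by
  have h0 : (0 : ℝ) < Fintype.card κ := by exact_mod_cast Fintype.card_pos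
  have : ∀ i, (if y i = false then (1 : ℝ) else 0) = (1 - sg (y i)) / 2 := fun i => by
    cases y i <;> norm_num [sg]
  unfold zf SS
  simp only [this]
  rw [Fintype.expect_eq_sum_div_card, ← sum_div, sum_sub_distrib, sum_const, card_univ]
  field_simp
  simp

lemma zf_nonneg (y : κ → Bool) : 0 ≤ zf y :=
  expect_nonneg fun _ _ => by split_ifs <;> norm_num

lemma smol_real {K : Type} [Field K] {M D r : ℕ} (hκ : Fintype.card κ = 2 * M + 1) (hr : 2 * M + 1 = r ^ 2)
    (Q : (κ → Bool) → Bool) (hQ : (fun y => bt K (Q y)) ∈ V K κ D) :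
    𝔼 y, (if Q y = true then (1 : ℝ) else 0) * sig M y ≤ D / r := by
  classical
  have h1 := smolensky hκ hQ
  have h2 := mid_bound hr
  have hr0 : (0 : ℝ) < r := by
    have : r ≠ 0 := by rintro rfl; simp at hr
    positivity
  have e1 : pr (fun y : κ → Bool => bt K (Q y) = if M < wt y then 1 else 0) =
      𝔼 y, ((1 / 2 : ℝ) - (1 / 2) * sig M y + (if Q y = true then (1 : ℝ) else 0) * sig M y) := by
    unfold pr
    refine expect_congr rfl fun y _ => ?_
    unfold sig bt
    by_cases h : M < wt y <;> cases hq : Q y <;> simp [h, hq] <;> norm_num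
  rw [expect_add_distrib, expect_sub_distrib, ← mul_expect, sig_mean hκ,
    expect_const univ_nonempty, pr_eq_card, Fintype.card_fun, hκ] at e1
  have h3 : ((univ.filter fun y : κ → Bool => bt K (Q y) = if M < wt y then 1 else 0).card : ℝ) ≤
      4 ^ M + D * ((2 * M + 1).choose M : ℕ) := by exact_mod_cast h1
  have h4 : (((2 * M + 1).choose M : ℕ) : ℝ) * r ≤ 2 * 4 ^ M := by exact_mod_cast h2
  have h5 : ((Fintype.card Bool ^ (2 * M + 1) : ℕ) : ℝ) = 2 * 4 ^ M := by
    rw [Fintype.card_bool]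
    push_cast
    rw [pow_succ, pow_mul]
    norm_num [mul_comm]
  rw [h5] at e1
  have h6 : (0 : ℝ) < 4 ^ M := by positivity
  have h7 : ((univ.filter fun y : κ → Bool => bt K (Q y) = if M < wt y then 1 else 0).card : ℝ) /
      (2 * 4 ^ M) ≤ 1 / 2 + D / r := by
    rw [div_le_iff₀ (by positivity)]
    have h8 : (((2 * M + 1).choose M : ℕ) : ℝ) ≤ 2 * 4 ^ M / r := by rwa [le_div_iff₀ hr0]
    calc _ ≤ (4 : ℝ) ^ M + D * ((2 * M + 1).choose M : ℕ) := h3
      _ ≤ (4 : ℝ) ^ M + D * (2 * 4 ^ M / r) := by gcongr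
      _ = _ := by field_simp
  linarith

lemma SS_bv : ∃ c : Finset κ → ℝ, Deg c 1 ∧ nrm c = Fintype.card κ ∧ ∀ y, bv c y = SS y := by
  have key : ∀ F : Finset κ → ℝ, ∑ A, (if A.card = 1 then F A else 0) = ∑ i, F {i} := by
    intro F
    rw [← sum_filter]
    have : (univ.filter fun A : Finset κ => A.card = 1) = powersetCard 1 univ := by
      ext A
      simp
    rw [this, powersetCard_one, sum_map]
    rfl
  refine ⟨fun A => if A.card = 1 then 1 else 0, fun A hA => ?_, ?_, fun y => ?_⟩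
  · by_contra h
    exact hA (if_neg (by omega))
  · unfold nrm
    simp only [ite_pow, one_pow, ne_eq, OfNat.ofNat_ne_zero, not_false_eq_true, zero_pow]
    rw [key fun _ => 1]
    simp
  · unfold bv ev SS
    simp only [ite_mul, one_mul, zero_mul]
    rw [key fun A => ∏ i ∈ A, sg (y i)]
    simp

lemma pos_part {r : ℕ} (hκ : Fintype.card κ = r ^ 2) (hr : 1 ≤ r) :
    (r : ℝ) / 6 ≤ 𝔼 y : κ → Bool, max (- SS y) 0 := by
  obtain ⟨c, hc, hn, hb⟩ := SS_bv (κ := κ)
  have h2 := parseval_bv c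
  have h4 := bonami_bv hc
  simp only [hb, hn, hκ] at h2 h4
  push_cast at h2 h4
  have hr0 : (0 : ℝ) < r := by exact_mod_cast hr
  have hp : ∀ y : κ → Bool, (1 / (4 * r)) * SS y ^ 2 - (1 / (108 * r ^ 3)) * SS y ^ 4 -
      (1 / 2) * SS y ≤ max (- SS y) 0 := by
    intro y
    have e1 : max (- SS y) 0 = (|SS y| - SS y) / 2 := by
      rcases le_total 0 (SS y) with h | h
      · rw [abs_of_nonneg h, max_eq_right (by linarith)]; ring
      · rw [abs_of_nonpos h, max_eq_left (by linarith)]; ring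
    have e2 : SS y ^ 2 = |SS y| ^ 2 := (sq_abs _).symm
    have e4 : SS y ^ 4 = |SS y| ^ 4 := by
      rw [show 4 = 2 * 2 by norm_num, pow_mul, pow_mul, e2]
    rw [e1, e2, e4]
    have h0 := abs_nonneg (SS y)
    set v := |SS y|
    have : 0 ≤ v * (v - 3 * r) ^ 2 * (v + 6 * r) / (108 * r ^ 3) := by positivity
    have e : v / 2 - (1 / (4 * r)) * v ^ 2 + (1 / (108 * r ^ 3)) * v ^ 4 =
        v * (v - 3 * r) ^ 2 * (v + 6 * r) / (108 * r ^ 3) := by
      field_simp
      ring
    linarith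
  refine le_trans ?_ (expect_le_expect fun y _ => hp y)
  rw [expect_sub_distrib, expect_sub_distrib, ← mul_expect, ← mul_expect, ← mul_expect, SS_mean, h2]
  have h5 : (1 / (108 * (r : ℝ) ^ 3)) * 𝔼 y : κ → Bool, SS y ^ 4 ≤
      (1 / (108 * (r : ℝ) ^ 3)) * (9 ^ 1 * ((r : ℝ) ^ 2) ^ 2) := by gcongr
  have e5 : (1 / (108 * (r : ℝ) ^ 3)) * (9 ^ 1 * ((r : ℝ) ^ 2) ^ 2) = r / 12 := by
    field_simp
    norm_num
  have e6 : (1 / (4 * (r : ℝ))) * (r : ℝ) ^ 2 = r / 4 := by field_simp
  linarith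

lemma sig_low {M l r : ℕ} (hκ : Fintype.card κ = 2 * M + 1) (hr : 2 * M + 1 = r ^ 2) :
    (l : ℝ) / (6 * r * 2 ^ l) ≤ 𝔼 y : κ → Bool, (- sig M y * zf y ^ l) := by
  have hr1 : 1 ≤ r := by
    rcases Nat.eq_zero_or_pos r with rfl | h
    · simp at hr
    · exact h
  have hr0 : (0 : ℝ) < r := by exact_mod_cast hr1
  have : Nonempty κ := Fintype.card_pos_iff.1 (by omega)
  have hL : (Fintype.card κ : ℝ) = (r : ℝ) ^ 2 := by rw [hκ, hr]; push_cast; rfl
  have hL' : (Fintype.card κ : ℝ) = 2 * M + 1 := by rw [hκ]; push_cast; rfl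
  have hp : ∀ y : κ → Bool, (1 / 2 ^ l) * (- sig M y) + (l / (2 ^ l * r ^ 2)) * max (- SS y) 0 ≤
      - sig M y * zf y ^ l := by
    intro y
    have hz := zf_nonneg y
    have e := zf_eq y
    have hs := SS_eq y
    have e2 : zf y ^ l = (1 / 2 ^ l) * (1 + (- SS y / r ^ 2)) ^ l := by
      rw [e, hL, div_pow]
      ring
    have hz' : 0 ≤ 1 + (- SS y / r ^ 2) := by
      rw [e, hL] at hz
      rw [neg_div]
      linarith
    rw [e2]
    unfold sig
    split_ifs with h
    · have h' : (M : ℝ) + 1 ≤ wt y := by exact_mod_cast h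
      have h0 : 0 ≤ SS y := by linarith
      rw [max_eq_right (by linarith)]
      have : (1 + (- SS y / (r : ℝ) ^ 2)) ^ l ≤ 1 := pow_le_one₀ hz' (by
        have : 0 ≤ SS y / (r : ℝ) ^ 2 := by positivity
        rw [neg_div]
        linarith)
      have h3 : (1 / 2 ^ l : ℝ) * (1 + (- SS y / (r : ℝ) ^ 2)) ^ l ≤ (1 / 2 ^ l) * 1 := by gcongr
      linarith
    · have h' : (wt y : ℝ) ≤ M := by exact_mod_cast not_lt.1 h
      have h0 : SS y ≤ 0 := by linarith
      rw [max_eq_left (by linarith)]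
      have := one_add_mul_le_pow (a := - SS y / (r : ℝ) ^ 2) (by linarith) l
      have h3 : (1 / 2 ^ l : ℝ) * (1 + l * (- SS y / (r : ℝ) ^ 2)) ≤
          (1 / 2 ^ l) * (1 + (- SS y / (r : ℝ) ^ 2)) ^ l := by gcongr
      have e3 : (1 / 2 ^ l : ℝ) * (1 + l * (- SS y / (r : ℝ) ^ 2)) =
          1 / 2 ^ l * (- -1) + (l / (2 ^ l * r ^ 2)) * (- SS y) := by
        field_simp
      linarith
  refine le_trans ?_ (expect_le_expect fun y _ => hp y)
  rw [expect_add_distrib, ← mul_expect, ← mul_expect, expect_neg_distrib, sig_mean hκ]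
  have h1 := pos_part (κ := κ) (hκ.trans hr) hr1
  calc (l : ℝ) / (6 * r * 2 ^ l) = (l / (2 ^ l * r ^ 2)) * ((r : ℝ) / 6) := by field_simp
    _ ≤ (l / (2 ^ l * r ^ 2)) * 𝔼 y : κ → Bool, max (- SS y) 0 := by gcongr
    _ = _ := by simp

lemma zf_sq {l : ℕ} (hκ : Fintype.card κ = (2 * l + 1) ^ 2) :
    𝔼 y : κ → Bool, zf y ^ (l * 2) ≤ 2 / 4 ^ l := by
  have : Nonempty κ := Fintype.card_pos_iff.1 (by rw [hκ]; positivity)
  have hL : (Fintype.card κ : ℝ) = (2 * l + 1) ^ 2 := by rw [hκ]; push_cast; rfl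
  have hL0 : (0 : ℝ) < Fintype.card κ := by rw [hL]; positivity
  set L : ℝ := (Fintype.card κ : ℝ) with hLdef
  set lam : ℝ := 2 * l / L with hlam
  have hp : ∀ y : κ → Bool, zf y ^ (l * 2) ≤ (1 / 4 ^ l) * ∏ i, Real.exp (- lam * sg (y i)) := by
    intro y
    have hz := zf_nonneg y
    have e := zf_eq y
    rw [← hLdef] at e
    have h1 : zf y ≤ Real.exp (- (SS y / L)) / 2 := by
      rw [e]
      have := Real.add_one_le_exp (- (SS y / L))
      linarith
    calc zf y ^ (l * 2) ≤ (Real.exp (- (SS y / L)) / 2) ^ (l * 2) := by gcongr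
      _ = _ := by
        rw [div_pow, ← Real.exp_nat_mul, ← Real.exp_sum, ← mul_sum, mul_comm l 2, pow_mul]
        have : ((2 * l : ℕ) : ℝ) * - (SS y / L) = - lam * ∑ i, sg (y i) := by
          rw [hlam]
          unfold SS
          push_cast
          ring
        rw [this]
        norm_num
        ring
  refine le_trans (expect_le_expect fun y _ => hp y) ?_
  rw [← mul_expect, expect_prod_pi fun (_ : κ) (b : Bool) => Real.exp (- lam * sg b)]
  have e1 : 𝔼 b : Bool, Real.exp (- lam * sg b) = Real.cosh lam := by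
    rw [Fintype.expect_eq_sum_div_card, Fintype.sum_bool, Real.cosh_eq]
    simp [sg, add_comm]
  rw [e1, prod_const, card_univ]
  have h2 : Real.cosh lam ^ Fintype.card κ ≤ 2 := by
    calc Real.cosh lam ^ Fintype.card κ ≤ Real.exp (lam ^ 2 / 2) ^ Fintype.card κ :=
          pow_le_pow_left₀ (Real.cosh_pos _).le (Real.cosh_le_exp_half_sq _) _
      _ = Real.exp (L * (lam ^ 2 / 2)) := by rw [← Real.exp_nat_mul]
      _ ≤ Real.exp (1 / 2) := by
          apply Real.exp_le_exp.2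
          have : L * (lam ^ 2 / 2) = 2 * l ^ 2 / L := by rw [hlam]; field_simp
          rw [this, div_le_iff₀ hL0, hL]
          have : (0 : ℝ) ≤ l := Nat.cast_nonneg _
          nlinarith
      _ ≤ 2 := by
          have h3 := Real.add_one_le_exp (- (1 / 2 : ℝ))
          have h4 : Real.exp (1 / 2) * Real.exp (- (1 / 2 : ℝ)) = 1 := by
            rw [← Real.exp_add]; simp
          have h5 := Real.exp_pos (1 / 2 : ℝ)
          nlinarith
  calc (1 / 4 ^ l : ℝ) * Real.cosh lam ^ Fintype.card κ ≤ (1 / 4 ^ l) * 2 := by gcongr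
    _ = _ := by ring

end Pool.Agent.Work.MP_f474fe_lc.PM
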