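import Pool.Agent.Work.MP_f474fe_lc.PT.ACModel

/-!
Tests given by real polynomial threshold gates together with a polynomial over a prime field, on top
of a constant-depth circuit.
-/

namespace Pool.Agent.Work.MP_f474fe_lc.PM

open Pool.Agent.Work.MP_f474fe_lc.PT

open Classical in
/-- `A` reads the values (0 or 1) of nodes of a circuit with `D` layers and at most `M` gates,
computes the signs `b` of `s` real polynomials of degree at most `d` in these values and the value
modulo `p` of a polynomial of degree at most `e` in them (the polynomial may depend on `b`), and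
answers with an arbitrary function of the signs and this value. -/
def MixTest {ι : Type} (p s d e D M : ℕ) (A : (ι → Bool) → Bool) : Prop :=
  ∃ (F : Set ((ι → Bool) → Bool)) (r : ℕ) (h : Fin r → (ι → Bool) → Bool)
    (P : Fin s → MvPolynomial (Fin r) ℝ) (Q : (Fin s → Bool) → MvPolynomial (Fin r) (ZMod p))
    (g : (Fin s → Bool) → ZMod p → Bool),
    Circ D M F ∧ (∀ j, h j ∈ F) ∧ (∀ i, (P i).totalDegree ≤ d) ∧ (∀ b, (Q b).totalDegree ≤ e) ∧
      ∀ G b, (∀ i, b i = decide (0 ≤ MvPolynomial.eval (fun j => if h j G then 1 else 0) (P i))) →
        A G = g b (MvPolynomial.eval (fun j => if h j G then 1 else 0) (Q b))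

end Pool.Agent.Work.MP_f474fe_lc.PM
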