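import Pool.Agent.Work.MP_f474fe_lc.PM.Coin

/-!
A test of low degree over a prime field does not notice that one of many disjoint
blocks has been set to 1.
-/

namespace Pool.Agent.Work.MP_f474fe_lc.PM

open Finset BigOperators Pool.Agent.Work.MP_f474fe_lc.PT

set_option linter.unusedSectionVars false

variable {ι κ : Type} [Fintype ι] [DecidableEq ι] [Fintype κ] [DecidableEq κ]

lemma push_bal {Λ : Type} [Fintype Λ] (π : ι → Λ → Bool)
    (h : ∀ e b, 𝔼 l, (if π e l = b then (1 : ℝ) else 0) = 1 / 2) (F : (ι → Bool) → ℝ) :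
    𝔼 ω : ι → Λ, F (fun e => π e (ω e)) = 𝔼 x, F x := by
  have e1 : ∀ ω : ι → Λ, F (fun e => π e (ω e)) =
      ∑ x : ι → Bool, F x * ∏ e, (if π e (ω e) = x e then (1 : ℝ) else 0) := by
    intro ω
    rw [Finset.sum_eq_single (fun e => π e (ω e))]
    · simp
    · intro x _ hx
      obtain ⟨e, he⟩ := Function.ne_iff.1 hx
      rw [Finset.prod_eq_zero (mem_univ e) (if_neg (Ne.symm he)), mul_zero]
    · simp
  simp only [e1]
  rw [expect_sum_comm, Fintype.expect_eq_sum_div_card, sum_div]
  refine sum_congr rfl fun x _ => ?_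
  rw [← mul_expect, expect_prod_pi fun e l => if π e l = x e then (1 : ℝ) else 0]
  simp only [h, prod_const, card_univ, Fintype.card_fun, Fintype.card_bool]
  push_cast
  rw [one_div, inv_pow, div_eq_mul_inv]

lemma bal_of_flip {Λ : Type} [Fintype Λ] [Nonempty Λ] (π : Λ → Bool) (τ : Λ → Λ)
    (hτ : Function.Involutive τ) (h : ∀ ω, π (τ ω) = !π ω) (b : Bool) :
    𝔼 ω, (if π ω = b then (1 : ℝ) else 0) = 1 / 2 := by
  have e1 : 𝔼 ω, (if π ω = b then (1 : ℝ) else 0) = 𝔼 ω, (if π (τ ω) = b then (1 : ℝ) else 0) :=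
    (Fintype.expect_equiv hτ.toPerm _ _ fun _ => rfl).symm
  have e2 : 𝔼 ω, (if π ω = b then (1 : ℝ) else 0) +
      𝔼 ω, (if π (τ ω) = b then (1 : ℝ) else 0) = 1 := by
    rw [← expect_add_distrib]
    conv_rhs => rw [← expect_const (univ_nonempty (α := Λ)) (1 : ℝ)]
    refine expect_congr rfl fun ω _ => ?_
    rw [h]
    cases π ω <;> cases b <;> simp
  linarith

lemma val_flip {p : ℕ} [hp : Fact p.Prime] (σ : ZMod p) : (-1 - σ).val + σ.val + 1 = p := by
  have h : (((-1 - σ).val + σ.val + 1 : ℕ) : ZMod p) = 0 := by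
    push_cast
    rw [ZMod.natCast_zmod_val, ZMod.natCast_zmod_val]
    ring
  obtain ⟨k, hk⟩ := (ZMod.natCast_eq_zero_iff _ _).1 h
  have h1 := ZMod.val_lt (-1 - σ)
  have h2 := ZMod.val_lt σ
  rcases k with _ | _ | k
  · omega
  · omega
  · have : p * (k + 1 + 1) = p * k + 2 * p := by ring
    omega

variable {t l p : ℕ} [hp : Fact p.Prime]

/-- The bits attached to an entry. -/
def cov (R : Fin t → Finset ι) (a : Fin t × Fin l → κ) (e : ι) : Finset κ :=
  (univ.filter fun p : Fin t × Fin l => e ∈ R p.1).image a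

/-- The embedding of the bit string into the instance. -/
def emb (R : Fin t → Finset ι) (a : Fin t × Fin l → κ) (y : κ → Bool) (e : ι)
    (w : Bool × (κ → ZMod p)) : Bool :=
  if ∃ i, e ∈ R i then
    decide (2 * (∑ c ∈ cov R a e, w.2 c * bt (ZMod p) (y c)).val + (if w.1 then 1 else 0) < p)
  else w.1

/-- The blocks all of whose bits vanish. -/
def zer (a : Fin t × Fin l → κ) (y : κ → Bool) : Finset (Fin t) :=
  univ.filter fun i => ∀ j, y (a (i, j)) = false

lemma emb_deg (R : Fin t → Finset ι) (a : Fin t × Fin l → κ) (e : ι) (w : Bool × (κ → ZMod p)) :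
    (fun y => bt (ZMod p) (emb R a y e w)) ∈ V (ZMod p) κ (p - 1) := by
  unfold emb
  by_cases h : ∃ i, e ∈ R i
  · simp only [if_pos h]
    have h1 : (fun y : κ → Bool => ∑ c ∈ cov R a e, w.2 c * bt (ZMod p) (y c)) ∈
        V (ZMod p) κ 1 := by
      have : (fun y : κ → Bool => ∑ c ∈ cov R a e, w.2 c * bt (ZMod p) (y c)) =
          ∑ c ∈ cov R a e, w.2 c • fun y : κ → Bool => bt (ZMod p) (y c) := by
        funext y
        simp
      rw [this]
      exact Submodule.sum_mem _ fun c _ => Submodule.smul_mem _ _ (V_var c)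
    have h2 := V_fun h1 fun s => bt (ZMod p) (decide (2 * s.val + (if w.1 then 1 else 0) < p))
    rwa [mul_one] at h2
  · simp only [if_neg h]
    exact V_const _ _

lemma emb_law {R : Fin t → Finset ι} (hR : ∀ i j e, e ∈ R i → e ∈ R j → i = j)
    (a : Fin t × Fin l → κ) (y : κ → Bool) (F : (ι → Bool) → ℝ) :
    𝔼 ω : ι → Bool × (κ → ZMod p), F (fun e => emb R a y e (ω e)) =
      𝔼 x, F (plantH ((zer a y).biUnion R) x) := by
  have h2 := hp.out.two_le
  let π : ι → (Bool × (κ → ZMod p)) → Bool := fun e w =>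
    if e ∈ (zer a y).biUnion R then w.1 else emb R a y e w
  rw [← push_bal π ?_ fun x => F (plantH ((zer a y).biUnion R) x)]
  · refine expect_congr rfl fun ω _ => congrArg F ?_
    funext e
    by_cases he : e ∈ (zer a y).biUnion R
    · obtain ⟨i, hi, hei⟩ := mem_biUnion.1 he
      have h0 : ∑ c ∈ cov R a e, (ω e).2 c * bt (ZMod p) (y c) = 0 := by
        refine sum_eq_zero fun c hc => ?_
        obtain ⟨q, hq, rfl⟩ := mem_image.1 hc
        have h1 : q.1 = i := hR _ _ e (mem_filter.1 hq).2 hei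
        have h2 := (mem_filter.1 hi).2 q.2
        rw [← h1] at h2
        rw [show y (a q) = false from h2]
        simp [bt]
      simp only [plantH, he, decide_true, Bool.or_true, emb]
      rw [if_pos ⟨i, hei⟩, h0, ZMod.val_zero, decide_eq_true_iff]
      split_ifs <;> omega
    · simp only [plantH, he, decide_false, Bool.or_false, π, if_false]
  · intro e b
    by_cases he : e ∈ (zer a y).biUnion R
    · refine bal_of_flip _ (fun w => (!w.1, w.2)) (fun w => by simp) (fun w => ?_) b
      simp only [π, if_pos he]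
    · by_cases h : ∃ i, e ∈ R i
      · obtain ⟨i, hi⟩ := h
        have h1 : ∃ j, y (a (i, j)) = true := by
          by_contra hc
          push Not at hc
          exact he (mem_biUnion.2 ⟨i, mem_filter.2 ⟨mem_univ _, fun j => by simpa using hc j⟩, hi⟩)
        obtain ⟨j, hj⟩ := h1
        have hc : a (i, j) ∈ cov R a e := mem_image.2 ⟨(i, j), by simp [hi], rfl⟩
        let σ : (κ → ZMod p) → ZMod p := fun u => ∑ c ∈ cov R a e, u c * bt (ZMod p) (y c)
        have hσ : ∀ u, σ (Function.update u (a (i, j)) (u (a (i, j)) - 1 - 2 * σ u)) = -1 - σ u := by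
          intro u
          have e1 : ∀ v, σ (Function.update u (a (i, j)) v) =
              v + ∑ c ∈ (cov R a e).erase (a (i, j)), u c * bt (ZMod p) (y c) := by
            intro v
            simp only [σ]
            rw [← add_sum_erase _ _ hc, Function.update_self, hj]
            congr 1
            · simp [bt]
            · exact sum_congr rfl fun c hc' => by rw [Function.update_of_ne (mem_erase.1 hc').1]
          have e2 := e1 (u (a (i, j)))
          rw [Function.update_eq_self] at e2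
          rw [e1]
          linear_combination (-1 : ZMod p) * e2
        refine bal_of_flip _ (fun w => (!w.1,
          Function.update w.2 (a (i, j)) (w.2 (a (i, j)) - 1 - 2 * σ w.2))) (fun w => ?_)
          (fun w => ?_) b
        · simp only [Bool.not_not, hσ, Function.update_self, Function.update_idem]
          have : w.2 (a (i, j)) - 1 - 2 * σ w.2 - 1 - 2 * (-1 - σ w.2) = w.2 (a (i, j)) := by ring
          rw [this, Function.update_eq_self]
        · simp only [π, if_neg he, emb, if_pos (⟨i, hi⟩ : ∃ i, e ∈ R i)]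
          change decide (2 * (σ _).val + _ < p) = !decide (2 * (σ w.2).val + _ < p)
          rw [← decide_not, decide_eq_decide, hσ]
          have := val_flip (σ w.2)
          cases w.1 <;> simp <;> omega
      · refine bal_of_flip _ (fun w => (!w.1, w.2)) (fun w => by simp) (fun w => ?_) b
        simp only [π, if_neg he, emb, if_neg h]

lemma zer_pr (y : κ → Bool) [Nonempty κ] (J : Finset (Fin t)) :
    𝔼 a : Fin t × Fin l → κ, (if J ⊆ zer a y then (1 : ℝ) else 0) = zf y ^ (l * J.card) := by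
  have e1 : ∀ a : Fin t × Fin l → κ, (if J ⊆ zer a y then (1 : ℝ) else 0) =
      ∏ p : Fin t × Fin l, (if p.1 ∈ J then (if y (a p) = false then (1 : ℝ) else 0) else 1) := by
    intro a
    by_cases h : J ⊆ zer a y
    · rw [if_pos h, prod_eq_one]
      intro p _
      split_ifs with h1 h2
      · rfl
      · exact absurd ((mem_filter.1 (h h1)).2 p.2) h2
      · rfl
    · rw [if_neg h]
      obtain ⟨i, hi, hi'⟩ := not_subset.1 h
      have : ∃ j, ¬ y (a (i, j)) = false := by
        by_contra hc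
        push Not at hc
        exact hi' (mem_filter.2 ⟨mem_univ _, hc⟩)
      obtain ⟨j, hj⟩ := this
      rw [prod_eq_zero (mem_univ (i, j))]
      rw [if_pos hi, if_neg hj]
  simp only [e1]
  rw [expect_prod_pi fun (p : Fin t × Fin l) (c : κ) =>
    if p.1 ∈ J then (if y c = false then (1 : ℝ) else 0) else 1]
  have e2 : ∀ p : Fin t × Fin l,
      𝔼 c : κ, (if p.1 ∈ J then (if y c = false then (1 : ℝ) else 0) else 1) =
        if p.1 ∈ J then zf y else 1 := by
    intro p
    split_ifs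
    · rfl
    · exact expect_const univ_nonempty _
  simp only [e2]
  rw [Fintype.prod_prod_type]
  have e3 : ∀ i : Fin t, ∏ _j : Fin l, (if i ∈ J then zf y else 1) =
      if i ∈ J then zf y ^ l else 1 := fun i => by
    rw [prod_const, card_univ, Fintype.card_fin, ite_pow, one_pow]
  rw [prod_congr rfl fun i _ => e3 i, prod_ite_mem, univ_inter, prod_const, ← pow_mul]

lemma first_order (G : Finset (Fin t) → ℝ) (h0 : ∀ Z, 0 ≤ G Z) (h1 : ∀ Z, G Z ≤ 1)
    (Z : Finset (Fin t)) :
    |G Z - G ∅ - ∑ i, (if {i} ⊆ Z then (1 : ℝ) else 0) * (G {i} - G ∅)| ≤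
      2 * ∑ p ∈ (univ : Finset (Fin t)).offDiag, (if {p.1, p.2} ⊆ Z then (1 : ℝ) else 0) := by
  have e1 : ∑ i, (if {i} ⊆ Z then (1 : ℝ) else 0) * (G {i} - G ∅) = ∑ i ∈ Z, (G {i} - G ∅) := by
    simp only [singleton_subset_iff, ite_mul, one_mul, zero_mul]
    rw [sum_ite_mem, univ_inter]
  have e2 : ∑ p ∈ (univ : Finset (Fin t)).offDiag, (if {p.1, p.2} ⊆ Z then (1 : ℝ) else 0) =
      (Z.offDiag.card : ℝ) := by
    rw [sum_boole]
    congr 2
    ext p
    simp only [mem_filter, mem_offDiag, mem_univ, true_and, insert_subset_iff, singleton_subset_iff]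
    tauto
  rw [e1, e2]
  rcases Nat.lt_or_ge Z.card 2 with h | h
  · have : Z.card = 0 ∨ Z.card = 1 := by omega
    rcases this with h | h
    · rw [card_eq_zero.1 h]; simp
    · obtain ⟨i, rfl⟩ := card_eq_one.1 h
      simp
  · have h2 : |∑ i ∈ Z, (G {i} - G ∅)| ≤ Z.card := by
      refine (abs_sum_le_sum_abs _ _).trans ?_
      calc ∑ i ∈ Z, |G {i} - G ∅| ≤ ∑ _i ∈ Z, (1 : ℝ) := sum_le_sum fun i _ =>
            abs_le.2 ⟨by linarith [h0 {i}, h1 ∅], by linarith [h1 {i}, h0 ∅]⟩
        _ = _ := by simp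
    have h3 : |G Z - G ∅| ≤ 1 := abs_le.2 ⟨by linarith [h0 Z, h1 ∅], by linarith [h1 Z, h0 ∅]⟩
    have h4 : Z.card + 1 ≤ 2 * Z.offDiag.card := by
      rw [offDiag_card]
      have : 2 * Z.card ≤ Z.card * Z.card := Nat.mul_le_mul_right _ h
      omega
    have h5 : (Z.card : ℝ) + 1 ≤ 2 * Z.offDiag.card := by exact_mod_cast h4
    have h6 := abs_sub (G Z - G ∅) (∑ i ∈ Z, (G {i} - G ∅))
    linarith

theorem tribes {R : Fin t → Finset ι} (hR : ∀ i j e, e ∈ R i → e ∈ R j → i = j) (hl : 1 ≤ l)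
    (hκ : Fintype.card κ = (2 * l + 1) ^ 2) (f : (ι → Bool) → Bool) {D : ℕ}
    (hf : ∀ X : (κ → Bool) → ι → Bool,
      (∀ e, (fun y => bt (ZMod p) (X y e)) ∈ V (ZMod p) κ (p - 1)) →
      (∀ e, (∀ i, e ∉ R i) → ∀ y y', X y e = X y' e) →
      (fun y => bt (ZMod p) (f (X y))) ∈ V (ZMod p) κ D) :
    t * pr (fun x => f x = true) - ∑ i, pr (fun x => f (plantH (R i) x) = true) ≤
      6 * D * 2 ^ l / l + 72 * t ^ 2 / 2 ^ l := by
  have : Nonempty κ := Fintype.card_pos_iff.1 (by rw [hκ]; positivity)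
  set M := 2 * l ^ 2 + 2 * l with hM
  have hr : 2 * M + 1 = (2 * l + 1) ^ 2 := by rw [hM]; ring
  have hκ' : Fintype.card κ = 2 * M + 1 := hκ.trans hr.symm
  let G : Finset (Fin t) → ℝ := fun Z => pr fun x => f (plantH (Z.biUnion R) x) = true
  have hG0 : G ∅ = pr fun x => f x = true := by
    refine pr_congr fun x => ?_
    have : plantH ((∅ : Finset (Fin t)).biUnion R) x = x := by
      funext e
      simp [plantH]
    rw [this]
  have hG1 : ∀ i, G {i} = pr fun x => f (plantH (R i) x) = true := fun i => by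
    simp only [G, singleton_biUnion]
  set Δ : ℝ := t * pr (fun x => f x = true) - ∑ i, pr (fun x => f (plantH (R i) x) = true) with hΔ
  have hΔ' : ∑ i, (G {i} - G ∅) = - Δ := by
    simp only [hG1, hG0, sum_sub_distrib, sum_const, card_univ, Fintype.card_fin, nsmul_eq_mul, hΔ]
    ring
  have h1 : 𝔼 a : Fin t × Fin l → κ, 𝔼 ω : ι → Bool × (κ → ZMod p), 𝔼 y : κ → Bool,
      (if f (fun e => emb R a y e (ω e)) = true then (1 : ℝ) else 0) * sig M y ≤
      D / ((2 * l + 1 : ℕ) : ℝ) := by
    refine expect_le univ_nonempty fun a _ => expect_le univ_nonempty fun ω _ => ?_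
    refine smol_real (K := ZMod p) hκ' hr (fun y => f fun e => emb R a y e (ω e)) ?_
    refine hf (fun y e => emb R a y e (ω e)) (fun e => emb_deg R a e (ω e)) fun e he y y' => ?_
    have : ¬ ∃ i, e ∈ R i := fun ⟨i, hi⟩ => he i hi
    simp only [emb, if_neg this]
  have h2 : 𝔼 a : Fin t × Fin l → κ, 𝔼 ω : ι → Bool × (κ → ZMod p), 𝔼 y : κ → Bool,
      (if f (fun e => emb R a y e (ω e)) = true then (1 : ℝ) else 0) * sig M y =
      𝔼 y : κ → Bool, 𝔼 a : Fin t × Fin l → κ, G (zer a y) * sig M y := by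
    rw [expect_comm (univ : Finset (κ → Bool))]
    refine expect_congr rfl fun a _ => ?_
    rw [expect_comm]
    refine expect_congr rfl fun y _ => ?_
    rw [← expect_mul, emb_law hR a y fun x => if f x = true then (1 : ℝ) else 0]
    congr 1
    simp only [G, pr]
    exact expect_congr rfl fun x _ => by congr
  have h3 : ∀ y : κ → Bool, G ∅ * sig M y + Δ * (- sig M y * zf y ^ l) -
      2 * t ^ 2 * zf y ^ (l * 2) ≤ 𝔼 a : Fin t × Fin l → κ, G (zer a y) * sig M y := by
    intro y
    have hs : |sig M y| = 1 := by unfold sig; split_ifs <;> simp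
    have hp : ∀ a : Fin t × Fin l → κ, G ∅ * sig M y +
        (∑ i, (if {i} ⊆ zer a y then (1 : ℝ) else 0) * (G {i} - G ∅)) * sig M y -
        2 * ∑ p ∈ (univ : Finset (Fin t)).offDiag, (if {p.1, p.2} ⊆ zer a y then (1 : ℝ) else 0) ≤
        G (zer a y) * sig M y := by
      intro a
      have k1 := first_order G (fun Z => pr_nonneg _) (fun Z => pr_le_one _) (zer a y)
      have k2 := neg_abs_le ((G (zer a y) - G ∅ -
        ∑ i, (if {i} ⊆ zer a y then (1 : ℝ) else 0) * (G {i} - G ∅)) * sig M y)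
      rw [abs_mul, hs, mul_one] at k2
      linarith
    refine le_trans ?_ (expect_le_expect fun a _ => hp a)
    rw [expect_sub_distrib, expect_add_distrib, expect_const univ_nonempty, ← expect_mul,
      ← mul_expect, expect_sum_comm, expect_sum_comm]
    simp only [← expect_mul, zer_pr, card_singleton, mul_one]
    rw [← mul_sum, hΔ']
    have k3 : ∑ p ∈ (univ : Finset (Fin t)).offDiag, zf y ^ (l * ({p.1, p.2} : Finset _).card) ≤
        t ^ 2 * zf y ^ (l * 2) := by
      rw [sum_congr rfl fun p hp => by rw [card_pair (mem_offDiag.1 hp).2.2], sum_const,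
        nsmul_eq_mul, offDiag_card, card_univ, Fintype.card_fin]
      have k4 : ((t * t - t : ℕ) : ℝ) ≤ t ^ 2 := by
        rw [sq]
        exact_mod_cast Nat.sub_le _ _
      have := zf_nonneg y
      gcongr
    linarith
  have h4 := expect_le_expect (s := univ) fun y _ => h3 y
  rw [← h2, expect_sub_distrib, expect_add_distrib, ← mul_expect, ← mul_expect, ← mul_expect,
    sig_mean hκ'] at h4
  have h5 := sig_low (κ := κ) (l := l) hκ' hr
  have h6 := zf_sq (κ := κ) hκ
  have hl0 : (1 : ℝ) ≤ l := by exact_mod_cast hl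
  rcases le_total Δ 0 with h | h
  · exact h.trans (by positivity)
  have h7 : Δ * ((l : ℝ) / (6 * ((2 * l + 1 : ℕ) : ℝ) * 2 ^ l)) ≤
      D / ((2 * l + 1 : ℕ) : ℝ) + 2 * t ^ 2 * (2 / 4 ^ l) := by
    have k1 := mul_le_mul_of_nonneg_left h5 h
    have k2 := mul_le_mul_of_nonneg_left h6 (by positivity : (0 : ℝ) ≤ 2 * t ^ 2)
    linarith
  push_cast at h7
  have e4 : (4 : ℝ) ^ l = 2 ^ l * 2 ^ l := by rw [← mul_pow]; norm_num
  have hpos : (0 : ℝ) < (l : ℝ) / (6 * (2 * l + 1) * 2 ^ l) := by positivity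
  rw [← le_div_iff₀ hpos, e4] at h7
  refine h7.trans ?_
  have e5 : ((D : ℝ) / (2 * l + 1) + 2 * t ^ 2 * (2 / (2 ^ l * 2 ^ l))) /
      ((l : ℝ) / (6 * (2 * l + 1) * 2 ^ l)) =
      6 * D * 2 ^ l / l + 24 * ((2 * l + 1) / l) * t ^ 2 / 2 ^ l := by
    field_simp
    ring
  rw [e5]
  have k3 : (2 * (l : ℝ) + 1) / l ≤ 3 := by
    rw [div_le_iff₀ (by linarith)]
    linarith
  have k4 : 24 * ((2 * (l : ℝ) + 1) / l) ≤ 72 := by linarith
  gcongr

end Pool.Agent.Work.MP_f474fe_lc.PM
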