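import Pool.Agent.Work.MP_f474fe_lc.PT.ACMain
import Pool.Agent.Work.MP_f474fe_lc.PM.Tribes
import Pool.Agent.Work.MP_f474fe_lc.PM.Model

/-!
Threshold gates and a polynomial modulo a prime on top of constant-depth circuits fail on the
k-partite bipartite planted clique problem.
-/

namespace Pool.Agent.Work.MP_f474fe_lc.PM

open Finset BigOperators Pool.Agent.Work.MP_f474fe_lc.PT

set_option linter.unusedSectionVars false

variable {ι κ : Type} [Fintype ι] [DecidableEq ι] [Fintype κ] [DecidableEq κ]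

lemma DT_V {K : Type} [Field K] {c : ℕ} (X : (κ → Bool) → ι → Bool)
    (hX : ∀ e, (fun y => bt K (X y e)) ∈ V K κ c) :
    ∀ (l : ℕ) (f : (ι → Bool) → Bool), DT l f → (fun y => bt K (f (X y))) ∈ V K κ (l * c) := by
  have hc : ∀ (n : ℕ) (f : (ι → Bool) → Bool), (∀ x y, f x = f y) →
      (fun y => bt K (f (X y))) ∈ V K κ n := by
    intro n f hf
    have : (fun y => bt K (f (X y))) = fun _ => bt K (f fun _ => false) :=
      funext fun y => by rw [hf (X y) fun _ => false]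
    rw [this]
    exact V_const _ _
  intro l
  induction l with
  | zero => exact fun f hf => hc _ f hf
  | succ l ih =>
    rintro f (hf | ⟨i, hi⟩)
    · exact hc _ f hf
    · have e : (fun y => bt K (f (X y))) =
          (fun y => bt K (f (Function.update (X y) i true))) * (fun y => bt K (X y i)) +
          (fun y => bt K (f (Function.update (X y) i false))) * (1 - fun y => bt K (X y i)) := by
        funext y
        simp only [Pi.add_apply, Pi.mul_apply, Pi.sub_apply, Pi.one_apply]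
        have h0 : Function.update (X y) i (X y i) = X y := Function.update_eq_self i (X y)
        cases h : X y i
        · rw [h] at h0
          rw [h0]
          simp [bt]
        · rw [h] at h0
          rw [h0]
          simp [bt]
      rw [e, Nat.succ_mul]
      exact Submodule.add_mem _ (V_mul (ih _ (hi true)) (hX i))
        (V_mul (ih _ (hi false)) (Submodule.sub_mem _ (V_one c) (hX i)))

lemma poly_V {K : Type} [Field K] {r c e : ℕ} (h : Fin r → (κ → Bool) → Bool)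
    (hh : ∀ j, (fun y => bt K (h j y)) ∈ V K κ c) (q : MvPolynomial (Fin r) K)
    (hq : q.totalDegree ≤ e) :
    (fun y => MvPolynomial.eval (fun j => if h j y then 1 else 0) q) ∈ V K κ (e * c) := by
  have e1 : (fun y => MvPolynomial.eval (fun j => if h j y then (1 : K) else 0) q) =
      ∑ a ∈ q.support, q.coeff a • ∏ j ∈ a.support, (fun y => bt K (h j y)) ^ a j := by
    funext y
    rw [MvPolynomial.eval_eq]
    simp [bt]
  rw [e1]
  refine Submodule.sum_mem _ fun a ha => Submodule.smul_mem _ _ (V_mono ?_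
    (V_prod a.support (fun j => a j * c) _ fun j _ => V_pow (hh j) (a j)))
  rw [← Finset.sum_mul]
  exact Nat.mul_le_mul_right c ((MvPolynomial.le_totalDegree ha).trans hq)

lemma exists_family {α : Type} [DecidableEq α] (k : ℕ) (f : Finset α → ℝ) :
    ∀ (t : ℕ) (U : Finset α), t * k ≤ U.card → ∃ S : Fin t → Finset α,
      (∀ i, S i ∈ powersetCard k U) ∧ (∀ i j e, e ∈ S i → e ∈ S j → i = j) ∧
        ∑ i, f (S i) ≤ t * 𝔼 W ∈ powersetCard k U, f W := by
  intro t
  induction t with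
  | zero => exact fun U _ => ⟨Fin.elim0, fun i => i.elim0, fun i => i.elim0, by simp⟩
  | succ t ih =>
    intro U hU
    have hk : k ≤ U.card := le_trans (Nat.le_mul_of_pos_left _ (Nat.succ_pos t)) hU
    have hne : (powersetCard k U).Nonempty := powersetCard_nonempty.2 hk
    have hcard : ∀ S ∈ powersetCard k U, (U \ S).card = U.card - k := fun S hS => by
      rw [card_sdiff_of_subset (mem_powersetCard.1 hS).1, (mem_powersetCard.1 hS).2]
    have key : (t : ℝ) * 𝔼 S ∈ powersetCard k U, 𝔼 W ∈ powersetCard k (U \ S), f W =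
        t * 𝔼 W ∈ powersetCard k U, f W := by
      rcases Nat.eq_zero_or_pos t with rfl | ht
      · simp
      congr 1
      have h1 : k ≤ U.card - k := by
        have : 2 * k ≤ (t + 1) * k := Nat.mul_le_mul_right _ (by omega)
        omega
      have h2 : (((U.card - k).choose k : ℕ) : ℝ) ≠ 0 := by
        exact_mod_cast (Nat.choose_pos h1).ne'
      have h3 : ∑ S ∈ powersetCard k U, ∑ W ∈ powersetCard k (U \ S), f W =
          ∑ W ∈ powersetCard k U, ∑ _S ∈ powersetCard k (U \ W), f W := by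
        refine sum_comm' fun S W => ?_
        simp only [mem_powersetCard, subset_sdiff]
        exact ⟨fun h => ⟨⟨⟨h.1.1, h.2.1.2.symm⟩, h.1.2⟩, h.2.1.1, h.2.2⟩,
          fun h => ⟨⟨h.1.1.1, h.1.2⟩, ⟨h.2.1, h.1.1.2.symm⟩, h.2.2⟩⟩
      rw [expect_eq_sum_div_card, expect_eq_sum_div_card]
      congr 1
      rw [sum_congr rfl fun S hS => by
        rw [expect_eq_sum_div_card, card_powersetCard, hcard S hS], ← sum_div, h3,
        sum_congr rfl fun W hW => by rw [sum_const, card_powersetCard, hcard W hW, nsmul_eq_mul],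
        ← mul_sum]
      field_simp
    obtain ⟨S0, hS0, h0⟩ := exists_le_of_expect_le hne
      (f := fun S => f S + t * 𝔼 W ∈ powersetCard k (U \ S), f W) le_rfl
    rw [expect_add_distrib, ← mul_expect, key] at h0
    obtain ⟨S, h1, h2, h3⟩ := ih (U \ S0) (by
      rw [hcard S0 hS0]
      have : (t + 1) * k = t * k + k := by ring
      omega)
    have h4 : ∀ i e, e ∈ S i → e ∉ S0 := fun i e he =>
      (mem_sdiff.1 ((mem_powersetCard.1 (h1 i)).1 he)).2
    refine ⟨Fin.cons S0 S, fun i => ?_, fun i j => ?_, ?_⟩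
    · refine Fin.cases hS0 (fun i => ?_) i
      exact mem_powersetCard.2 ⟨(mem_powersetCard.1 (h1 i)).1.trans sdiff_subset,
        (mem_powersetCard.1 (h1 i)).2⟩
    · refine Fin.cases (Fin.cases (fun _ _ _ => rfl) (fun j e he he' => ?_) j)
        (fun i => Fin.cases (fun e he he' => ?_) (fun j e he he' => ?_) j) i
      · exact absurd he (h4 j e he')
      · exact absurd he' (h4 i e he)
      · rw [h2 i j e he he']
    · rw [Fin.sum_univ_succ]
      simp only [Fin.cons_zero, Fin.cons_succ]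
      push_cast
      linarith

lemma sub_unit {α : Type} [DecidableEq α] (U : Finset α) (k : ℕ) :
    Sub (fun _ : α => ()) U k = powersetCard k U := by
  ext S
  simp [mem_Sub, Bal, mem_powersetCard]

lemma plant_plant {R H : Finset ι} (h : R ⊆ H) (x : ι → Bool) :
    plantH H (plantH R x) = plantH H x := by
  funext e
  by_cases he : e ∈ H
  · simp [plantH, he]
  · have : e ∉ R := fun h' => he (h h')
    simp [plantH, he, this]

lemma pm_block {α α' : Type} [Fintype α] [DecidableEq α] [Fintype α'] [DecidableEq α'] {β : Type}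
    {p : ℕ} [hp : Fact p.Prime] {t l k w e r : ℕ} (ht : 1 ≤ t) (hl : 1 ≤ l) (S' : Finset α)
    (hS' : S'.card = t * k) (T : Finset α') (b : (α × α' → Bool) → β)
    (h : Fin r → (α × α' → Bool) → Bool) (hh : ∀ j, DT w (h j))
    (Q : β → MvPolynomial (Fin r) (ZMod p)) (hQ : ∀ c, (Q c).totalDegree ≤ e)
    (g : β → ZMod p → Bool) (A : (α × α' → Bool) → Bool)
    (hA : ∀ y, A y = g (b y) (MvPolynomial.eval (fun j => if h j y then 1 else 0) (Q (b y)))) :
    pr (fun y => A y = false) -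
      𝔼 S ∈ powersetCard k S', pr (fun y => A (plantH (S ×ˢ T) y) = false) ≤
      2 * pr (fun y => b y ≠ b (plantH (S' ×ˢ T) y)) +
        𝔼 S ∈ powersetCard k S', pr (fun y => b y ≠ b (plantH (S ×ˢ T) y)) +
        (6 * ((p - 1) * (e * (w * (p - 1))) : ℕ) * 2 ^ l / (t * l) + 72 * t / 2 ^ l) := by
  classical
  set H := S' ×ˢ T with hH
  let f : (α × α' → Bool) → Bool := fun y => !g (b (plantH H y))
    (MvPolynomial.eval (fun j => if h j y then 1 else 0) (Q (b (plantH H y))))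
  have ht0 : (0 : ℝ) < t := by exact_mod_cast ht
  have hl0 : (0 : ℝ) < l := by exact_mod_cast hl
  have hne : (powersetCard k S').Nonempty :=
    powersetCard_nonempty.2 (hS' ▸ Nat.le_mul_of_pos_left _ ht)
  obtain ⟨S, h1, h2, h3⟩ := exists_family k
    (fun S => pr fun y => f (plantH (S ×ˢ T) y) = true) t S' hS'.ge
  have h4 := tribes (p := p) (κ := Fin ((2 * l + 1) ^ 2)) (R := fun i => S i ×ˢ T)
    (fun i j e he he' => h2 i j e.1 (mem_product.1 he).1 (mem_product.1 he').1) hl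
    (Fintype.card_fin _) f (D := (p - 1) * (e * (w * (p - 1)))) fun X hX hc => by
      have hb : ∀ y, plantH H (X y) = plantH H (X fun _ => false) := by
        intro y
        funext e
        by_cases he : e ∈ H
        · simp [plantH, he]
        · simp only [plantH]
          rw [hc e (fun i hi => he (product_subset_product (mem_powersetCard.1 (h1 i)).1
            subset_rfl hi)) y fun _ => false]
      simp only [f, hb]
      exact V_fun (poly_V (fun j y => h j (X y)) (fun j => DT_V X hX w (h j) (hh j)) _ (hQ _))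
        fun s => bt (ZMod p) (!g (b (plantH H (X fun _ => false))) s)
  have h5 : pr (fun y => A y = false) ≤ pr (fun y => f y = true) +
      pr (fun y => b y ≠ b (plantH H y)) := by
    refine pr_le_add fun y hy => ?_
    by_cases hb : b y = b (plantH H y)
    · left
      simp only [f, ← hb, ← hA y, hy, Bool.not_false]
    · exact Or.inr hb
  have h6 : 𝔼 S ∈ powersetCard k S', pr (fun y => f (plantH (S ×ˢ T) y) = true) ≤
      𝔼 S ∈ powersetCard k S', (pr (fun y => A (plantH (S ×ˢ T) y) = false) +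
        (pr (fun y => b y ≠ b (plantH (S ×ˢ T) y)) + pr (fun y => b y ≠ b (plantH H y)))) := by
    refine expect_le_expect fun S0 hS0 => ?_
    have hsub : S0 ×ˢ T ⊆ H := product_subset_product (mem_powersetCard.1 hS0).1 subset_rfl
    refine le_trans (pr_le_add (Q := fun y => A (plantH (S0 ×ˢ T) y) = false)
      (R := fun y => b y ≠ b (plantH (S0 ×ˢ T) y) ∨ b y ≠ b (plantH H y)) fun y hy => ?_)
      (add_le_add le_rfl (pr_or_le _ _))
    by_cases hb : b y = b (plantH (S0 ×ˢ T) y)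
    · by_cases hb' : b y = b (plantH H y)
      · left
        simp only [f, plant_plant hsub, ← hb'] at hy
        rw [hA, ← hb]
        simpa using hy
      · exact Or.inr (Or.inr hb')
    · exact Or.inr (Or.inl hb)
  rw [expect_add_distrib, expect_add_distrib, expect_const hne] at h6
  have h7 : pr (fun y => f y = true) -
      𝔼 S ∈ powersetCard k S', pr (fun y => f (plantH (S ×ˢ T) y) = true) ≤
      6 * ((p - 1) * (e * (w * (p - 1))) : ℕ) * 2 ^ l / (t * l) + 72 * t / 2 ^ l := by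
    refine le_of_mul_le_mul_left ?_ ht0
    have e1 : (t : ℝ) * (6 * ((p - 1) * (e * (w * (p - 1))) : ℕ) * 2 ^ l / (t * l) +
        72 * t / 2 ^ l) =
        6 * ((p - 1) * (e * (w * (p - 1))) : ℕ) * 2 ^ l / l + 72 * t ^ 2 / 2 ^ l := by
      field_simp
    rw [e1, mul_sub]
    linarith
  linarith

open Classical in
/-- The vector of signs. -/
noncomputable def sgn {s : ℕ} (c : Fin s → Finset ι → ℝ) (y : ι → Bool) : Fin s → Bool :=
  fun i => decide (0 ≤ bv (c i) y)

lemma pm_flips {m n km kn a b : ℕ} {E : Fin n → Fin kn} (hkm : 1 ≤ km) (hkn : 1 ≤ kn)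
    {S : Finset (Fin m)} {T : Finset (Fin n)} (hS : Bal (fun _ : Fin m => ()) S a) (hT : Bal E T b)
    (ha : km ≤ a) (hb : 1 ≤ b) {s e : ℕ} (he : 1 ≤ e) (c : Fin s → Finset (Fin m × Fin n) → ℝ)
    (hc : ∀ i, Deg (c i) e) :
    𝔼 θ ∈ Sub (fun _ : Fin m => ()) S km ×ˢ Sub E T 1,
      pr (fun y => sgn c y ≠ sgn c (plantH (θ.1 ×ˢ θ.2) y)) ≤
      s * (256 * e * ((Real.exp (km * ((km : ℝ) / a)) - 1) *
        (Real.exp (kn * (((1 : ℕ) : ℝ) / b)) - 1)) ^ (1 / (500 * e) : ℝ)) := by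
  classical
  have h1 : ∀ θ : Finset (Fin m) × Finset (Fin n),
      pr (fun y => sgn c y ≠ sgn c (plantH (θ.1 ×ˢ θ.2) y)) ≤
        ∑ i, pr (fun y => sgn c y i ≠ sgn c (plantH (θ.1 ×ˢ θ.2) y) i) := fun θ =>
    le_trans (pr_mono fun y hy => by
      obtain ⟨i, hi⟩ := Function.ne_iff.1 hy
      exact ⟨i, mem_univ i, hi⟩) (pr_exists_le univ _)
  refine le_trans (expect_le_expect fun θ _ => h1 θ) ?_
  rw [expect_sum_comm]
  refine le_trans (sum_le_sum fun i _ => acm_inner hkm hkn hS hT ha hb he (fun _ : Fin 1 => c i)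
    (fun _ => hc i) (fun v => v 0) (fun y => sgn c y i) fun y => rfl) ?_
  simp

lemma pm_tower {α γ : Type} [Fintype α] [DecidableEq α] {U : Finset α} {a k k' : ℕ}
    (hU : Bal (fun _ : α => ()) U a) (h1 : k' ≤ a) (h2 : k ≤ k') (Y : Finset γ)
    (Φ : Finset α × γ → ℝ) :
    𝔼 θ ∈ Sub (fun _ : α => ()) U k ×ˢ Y, Φ θ =
      𝔼 z ∈ Sub (fun _ : α => ()) U k' ×ˢ Y, 𝔼 S ∈ powersetCard k z.1, Φ (S, z.2) := by
  rw [expect_product, expect_product, ← sub_tower hU h1 h2]
  refine expect_congr rfl fun W _ => ?_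
  rw [expect_comm, sub_unit]

lemma pm_inner {m n km kn a b : ℕ} {E : Fin n → Fin kn} (hkm : 1 ≤ km) (hkn : 1 ≤ kn)
    {S : Finset (Fin m)} {T : Finset (Fin n)} (hS : Bal (fun _ : Fin m => ()) S a) (hT : Bal E T b)
    {p : ℕ} [hp : Fact p.Prime] {t l w e r : ℕ} (ht : 1 ≤ t) (hl : 1 ≤ l)
    (ha : t * km ≤ a) (hb : 1 ≤ b) {s d : ℕ} (hd : 1 ≤ d)
    (c : Fin s → Finset (Fin m × Fin n) → ℝ) (hc : ∀ i, Deg (c i) d)
    (h : Fin r → (Fin m × Fin n → Bool) → Bool) (hh : ∀ j, DT w (h j))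
    (Q : (Fin s → Bool) → MvPolynomial (Fin r) (ZMod p)) (hQ : ∀ c, (Q c).totalDegree ≤ e)
    (g : (Fin s → Bool) → ZMod p → Bool) (A : (Fin m × Fin n → Bool) → Bool)
    (hA : ∀ y, A y = g (sgn c y)
      (MvPolynomial.eval (fun j => if h j y then 1 else 0) (Q (sgn c y)))) :
    pr (fun y => A y = false) - 𝔼 θ ∈ Sub (fun _ : Fin m => ()) S km ×ˢ Sub E T 1,
      pr (fun y => A (plantH (θ.1 ×ˢ θ.2) y) = false) ≤
      3 * (s * (256 * d * ((Real.exp ((t * km : ℕ) * (((t * km : ℕ) : ℝ) / a)) - 1) *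
        (Real.exp (kn * (((1 : ℕ) : ℝ) / b)) - 1)) ^ (1 / (500 * d) : ℝ))) +
      (6 * ((p - 1) * (e * (w * (p - 1))) : ℕ) * 2 ^ l / (t * l) + 72 * t / 2 ^ l) := by
  have hk : km ≤ t * km := Nat.le_mul_of_pos_left _ ht
  have hne : (Sub (fun _ : Fin m => ()) S (t * km) ×ˢ Sub E T 1).Nonempty :=
    (sub_nonempty hS ha).product (sub_nonempty hT hb)
  have f1 := pm_flips hkm hkn hS hT (hk.trans ha) hb hd c hc
  have f2 := pm_flips (hkm.trans hk) hkn hS hT ha hb hd c hc
  have f3 : (s : ℝ) * (256 * d * ((Real.exp (km * ((km : ℝ) / a)) - 1) *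
        (Real.exp (kn * (((1 : ℕ) : ℝ) / b)) - 1)) ^ (1 / (500 * d) : ℝ)) ≤
      s * (256 * d * ((Real.exp ((t * km : ℕ) * (((t * km : ℕ) : ℝ) / a)) - 1) *
        (Real.exp (kn * (((1 : ℕ) : ℝ) / b)) - 1)) ^ (1 / (500 * d) : ℝ)) := by
    have k1 : 0 ≤ Real.exp (km * ((km : ℝ) / a)) - 1 :=
      sub_nonneg.2 (Real.one_le_exp (by positivity))
    have k2 : 0 ≤ Real.exp (kn * (((1 : ℕ) : ℝ) / b)) - 1 :=
      sub_nonneg.2 (Real.one_le_exp (by positivity))
    have k3 : (km : ℝ) ≤ ((t * km : ℕ) : ℝ) := by exact_mod_cast hk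
    gcongr
  rw [pm_tower hS ha hk] at f1
  rw [pm_tower hS ha hk]
  have key := expect_le_expect (s := Sub (fun _ : Fin m => ()) S (t * km) ×ˢ Sub E T 1)
    fun z hz => pm_block (p := p) (k := km) ht hl z.1
      (by simpa using bal_card (mem_Sub.1 (mem_product.1 hz).1).2) z.2 (sgn c) h hh Q hQ g A hA
  rw [expect_sub_distrib, expect_const hne, expect_add_distrib, expect_add_distrib,
    expect_const hne, ← mul_expect] at key
  linarith

lemma pm_total {m n kn : ℕ} (km : ℕ) (E : Fin n → Fin kn) (A : (Fin m × Fin n → Bool) → Bool) :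
    totalError km E A = 1 - (pr (fun G => A G = false) -
      𝔼 ST ∈ Secrets m km E, pr fun G => A (plantH (ST.1 ×ˢ ST.2) G) = false) := by
  classical
  have hcardG : (Fintype.card (Fin m × Fin n → Bool) : ℝ) = 2 ^ (m * n) := by simp
  have hplant : ∀ (ST : Finset (Fin m) × Finset (Fin n)) (G : Fin m × Fin n → Bool),
      plant G ST = plantH (ST.1 ×ˢ ST.2) G := by
    intro ST G
    funext e
    simp [plant, plantH, mem_product]
  have hT1 : ((univ.filter fun G => A G = true).card : ℝ) / 2 ^ (m * n) =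
      1 - pr fun G => A G = false := by
    rw [← pr_not, pr_eq_card, hcardG]
    congr 2
    exact congrArg card (filter_congr fun G _ => by simp)
  have hT2 : (((univ ×ˢ Secrets m km E).filter fun z => A (plant z.1 z.2) = false).card : ℝ) /
      (2 ^ (m * n) * (Secrets m km E).card) =
      𝔼 ST ∈ Secrets m km E, pr fun G => A (plantH (ST.1 ×ˢ ST.2) G) = false := by
    rw [expect_eq_sum_div_card, ← div_div]
    congr 1
    rw [card_filter, sum_product_right]
    push_cast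
    rw [sum_div]
    refine sum_congr rfl fun ST _ => ?_
    rw [pr_eq_card, hcardG, card_filter]
    push_cast
    simp only [hplant]
  unfold totalError
  rw [hT1, hT2]
  ring

theorem pm_main (p : ℕ) (hp : p.Prime) (m n km kn : ℕ) (E : Fin n → Fin kn) (hkm : 1 ≤ km)
    (hkn : 1 ≤ kn) (hE : ∀ j, (univ.filter fun v => E v = j).card = n / kn)
    (s d e D M u K t l a b : ℕ) (hd : 1 ≤ d) (hu : 1 ≤ u) (hK : 1 ≤ K) (ht : 1 ≤ t) (hl : 1 ≤ l)
    (ha : a = m / K ^ D) (hb : b = n / kn / K ^ D) (hta : t * km ≤ a) (hb1 : 1 ≤ b)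
    (A : (Fin m × Fin n → Bool) → Bool) (hA : MixTest p s d e D M A) :
    1 - 768 * s * d * (u : ℝ) ^ 2 * ((Real.exp (((t : ℝ) * km) ^ 2 / a) - 1) *
        (Real.exp ((kn : ℝ) / b) - 1)) ^ (1 / (500 * d * (u : ℝ) ^ 2)) -
      M * (u : ℝ) ^ 2 * (8 * (u : ℝ) ^ 2) ^ (2 * u ^ 2) / (K : ℝ) ^ (2 * u) -
      6 * ((p : ℝ) - 1) ^ 2 * e * (u : ℝ) ^ 2 * 2 ^ l / (t * l) - 72 * t / 2 ^ l ≤
      totalError km E A := by
  classical
  have : Fact p.Prime := ⟨hp⟩
  obtain ⟨F, r, h, P, Q, gg, hF, hh, hP, hQ, hgg⟩ := hA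
  have he : 1 ≤ d * u ^ 2 := Nat.mul_pos hd (Nat.one_le_pow _ _ hu)
  have hE1 : Bal (fun _ : Fin m => ()) univ m := fun j => by simp
  have hE2 : Bal E univ (n / kn) := hE
  have ham : a ≤ m := ha ▸ Nat.div_le_self _ _
  have hbb : b ≤ n / kn := hb ▸ Nat.div_le_self _ _
  have hkma : km ≤ a := le_trans (Nat.le_mul_of_pos_left _ ht) hta
  have hlay := rect_layers hE1 hE2 hK hu hF
  rw [← ha, ← hb] at hlay
  set B : ℝ := 3 * (s * (256 * ((d * u ^ 2 : ℕ) : ℝ) *
      ((Real.exp ((t * km : ℕ) * (((t * km : ℕ) : ℝ) / a)) - 1) *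
        (Real.exp (kn * (((1 : ℕ) : ℝ) / b)) - 1)) ^ (1 / (500 * ((d * u ^ 2 : ℕ) : ℝ)) : ℝ))) +
      (6 * ((p - 1) * (e * (u ^ 2 * (p - 1))) : ℕ) * 2 ^ l / (t * l) + 72 * t / 2 ^ l) with hBdef
  have hB0 : 0 ≤ B := by
    have k1 : 0 ≤ Real.exp ((t * km : ℕ) * (((t * km : ℕ) : ℝ) / a)) - 1 :=
      sub_nonneg.2 (Real.one_le_exp (by positivity))
    have k2 : 0 ≤ Real.exp (kn * (((1 : ℕ) : ℝ) / b)) - 1 :=
      sub_nonneg.2 (Real.one_le_exp (by positivity))
    positivity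
  have hXne : (Sub (fun _ : Fin m => ()) univ a ×ˢ Sub E univ b).Nonempty :=
    (sub_nonempty hE1 ham).product (sub_nonempty hE2 hbb)
  have key : 𝔼 z ∈ Sub (fun _ : Fin m => ()) univ a ×ˢ Sub E univ b,
      (pr (fun x => A x = false) - 𝔼 z' ∈ Sub (fun _ : Fin m => ()) z.1 km ×ˢ Sub E z.2 1,
        pr (fun x => A (plantH (z'.1 ×ˢ z'.2) x) = false)) ≤
      𝔼 z ∈ Sub (fun _ : Fin m => ()) univ a ×ˢ Sub E univ b,
        (pr (fun x => ¬ ∀ f ∈ F, DT (u ^ 2) (Rs (z.1 ×ˢ z.2) x f)) + B) := by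
    refine expect_le_expect fun z hz => ?_
    obtain ⟨hz1, hz2⟩ := mem_product.1 hz
    have hS := (mem_Sub.1 hz1).2
    have hT := (mem_Sub.1 hz2).2
    have e1 : 𝔼 z' ∈ Sub (fun _ : Fin m => ()) z.1 km ×ˢ Sub E z.2 1,
        pr (fun x => A (plantH (z'.1 ×ˢ z'.2) x) = false) =
        𝔼 x0, 𝔼 z' ∈ Sub (fun _ : Fin m => ()) z.1 km ×ˢ Sub E z.2 1,
          pr (fun y => Rs (z.1 ×ˢ z.2) x0 A (plantH (z'.1 ×ˢ z'.2) y) = false) := by
      rw [expect_comm]
      refine expect_congr rfl fun z' hz' => ?_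
      obtain ⟨h1, h2⟩ := mem_product.1 hz'
      have hsub : z'.1 ×ˢ z'.2 ⊆ z.1 ×ˢ z.2 :=
        product_subset_product (mem_Sub.1 h1).1 (mem_Sub.1 h2).1
      rw [acm_pr_piece (z.1 ×ˢ z.2)]
      exact expect_congr rfl fun x0 _ => pr_congr fun y => by simp only [acm_plant hsub, Rs]
    rw [e1, acm_pr_piece (z.1 ×ˢ z.2) fun x => A x = false, ← expect_sub_distrib]
    conv_rhs => rw [← expect_const (univ_nonempty (α := Fin m × Fin n → Bool)) B]
    have e2 : pr (fun x => ¬ ∀ f ∈ F, DT (u ^ 2) (Rs (z.1 ×ˢ z.2) x f)) =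
        𝔼 x, if ¬ ∀ f ∈ F, DT (u ^ 2) (Rs (z.1 ×ˢ z.2) x f) then (1 : ℝ) else 0 := by
      unfold pr
      exact expect_congr rfl fun x _ => by congr
    rw [e2, ← expect_add_distrib]
    refine expect_le_expect fun x0 _ => ?_
    by_cases hgood : ∀ f ∈ F, DT (u ^ 2) (Rs (z.1 ×ˢ z.2) x0 f)
    · rw [if_neg (not_not.2 hgood), zero_add]
      choose c hc hcv using fun i => poly_deg (fun j => Rs (z.1 ×ˢ z.2) x0 (h j))
        (fun j => hgood _ (hh j)) (P i) (hP i)
      refine pm_inner hkm hkn hS hT ht hl hta hb1 he c hc (fun j => Rs (z.1 ×ˢ z.2) x0 (h j))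
        (fun j => hgood _ (hh j)) Q hQ gg (Rs (z.1 ×ˢ z.2) x0 A) fun y => ?_
      refine hgg _ _ fun i => ?_
      unfold sgn
      rw [← hcv i y]
      rfl
    · rw [if_pos hgood]
      have k1 : 0 ≤ 𝔼 z' ∈ Sub (fun _ : Fin m => ()) z.1 km ×ˢ Sub E z.2 1,
          pr (fun y => Rs (z.1 ×ˢ z.2) x0 A (plantH (z'.1 ×ˢ z'.2) y) = false) :=
        expect_nonneg fun _ _ => pr_nonneg _
      have k2 := pr_le_one fun y => A ((z.1 ×ˢ z.2).piecewise y x0) = false
      linarith
  rw [expect_add_distrib, expect_const hXne, expect_sub_distrib, expect_const hXne] at key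
  rw [pm_total, acm_secrets, prod_tower hE1 hE2 ham hkma hbb hb1]
  have hp1 : ((p - 1 : ℕ) : ℝ) = p - 1 := by
    rw [Nat.cast_sub hp.one_le, Nat.cast_one]
  have f1 : B = 768 * s * d * (u : ℝ) ^ 2 * ((Real.exp (((t : ℝ) * km) ^ 2 / a) - 1) *
        (Real.exp ((kn : ℝ) / b) - 1)) ^ (1 / (500 * d * (u : ℝ) ^ 2)) +
      (6 * ((p : ℝ) - 1) ^ 2 * e * (u : ℝ) ^ 2 * 2 ^ l / (t * l) + 72 * t / 2 ^ l) := by
    rw [hBdef]
    push_cast
    rw [hp1, show ((t : ℝ) * km) * ((t * km) / a) = (t * km) ^ 2 / a by ring,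
      show (kn : ℝ) * (1 / b) = kn / b by ring, mul_assoc (500 : ℝ)]
    ring
  have f2 : (M : ℝ) * ((u ^ 2 : ℕ) * (8 * (u ^ 2 : ℕ)) ^ (u ^ 2 + u ^ 2) * (1 / (K : ℝ)) ^ (2 * u)) =
      M * (u : ℝ) ^ 2 * (8 * (u : ℝ) ^ 2) ^ (2 * u ^ 2) / (K : ℝ) ^ (2 * u) := by
    push_cast
    rw [← two_mul, one_div, inv_pow, div_eq_mul_inv]
    ring
  rw [f2] at hlay
  linarith

end Pool.Agent.Work.MP_f474fe_lc.PM
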